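import Mathlib

/-!
# Counting the new edges of a copy
-/

set_option autoImplicit false

namespace Pool.Agent.R46.PkFree

open Finset

variable {V : Type*} [DecidableEq V]

/-- the pairs at path-distance at least two of a map `φ : Fin k → V`. -/
def cp {k : ℕ} (φ : Fin k → V) : Finset (Sym2 V) :=
  ((univ : Finset (Fin k × Fin k)).filter (fun p => p.1.val + 2 ≤ p.2.val)).image
    (fun p => s(φ p.1, φ p.2))

/-- the pairs joining `v` to the members of `C`. -/
def st (C : Finset V) (v : V) : Finset (Sym2 V) := C.image (fun c => s(v, c))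

theorem two_choose (n : ℕ) : 2 * (n + 1).choose 2 = (n + 1) * n := by
  induction n with
  | zero => simp
  | succ n ih =>
    have : (n + 1 + 1).choose 2 = (n + 1).choose 1 + (n + 1).choose 2 := Nat.choose_succ_succ _ _
    rw [this, mul_add, ih, Nat.choose_one_right]
    ring

theorem arith (m s n' d0 d1 d2 ct cr dg : ℕ) (hm : 2 ≤ m) (hs : 1 ≤ s) (hn : 1 ≤ n')
    (hsn : s + n' = 2 * m + 2) (h0 : 2 * d0 + (s + 1) * s = (2 * m + 3) * (2 * m + 2))
    (h1 : d0 ≤ d1 + dg + ct) (hdg : dg ≤ n') (hct1 : ct ≤ 2 * m + 1) (hct2 : ct ≤ 2 * n')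
    (h2 : m ≤ d2 + cr) (hcr1 : cr ≤ m) (hcr2 : cr ≤ s) : m * n' + 1 ≤ d1 + d2 := by
  zify at *
  have e : (s : ℤ) = 2 * m + 2 - n' := by linarith
  rw [e] at h0 hcr2 hs
  rcases le_or_gt (n' : ℤ) m with hA | hA
  · nlinarith [mul_nonneg (sub_nonneg.2 hn) (sub_nonneg.2 hA)]
  · rcases le_or_gt (n' : ℤ) (m + 2) with hB | hB
    · have : (n' : ℤ) = m + 1 ∨ (n' : ℤ) = m + 2 := by omega
      have h7 : (0 : ℤ) ≤ (m - 2) * (m + 1) := mul_nonneg (by linarith) (by linarith)
      rcases this with h | h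
      · rw [h] at h0 hcr2 hdg hct2 ⊢
        nlinarith
      · rw [h] at h0 hcr2 hdg hct2 ⊢
        nlinarith
    · have h5 : (0 : ℤ) ≤ n' - (m + 3) := by omega
      have h6 : (0 : ℤ) ≤ 2 * m + 1 - n' := by omega
      nlinarith [mul_nonneg h5 h6]

theorem new_card {m k : ℕ} (hm : 2 ≤ m) (hk : k = 2 * m + 2) (φ : Fin k → V)
    (hφ : Function.Injective φ)
    (C U : Finset V) (hC : C.card = m) (hCU : C ⊆ U) (a b : Fin k) (ha : φ a ∉ U)
    (hb : φ b ∈ U) :
    m * ((univ : Finset (Fin k)).filter (fun i => φ i ∉ U)).card + 1 ≤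
      ((cp φ ∪ st C (φ a)) \ U.sym2).card := by
  classical
  set R : Finset V := univ.image φ with hR
  have hRc : R.card = k := by
    rw [hR, Finset.card_image_of_injective _ hφ, Finset.card_univ, Fintype.card_fin]
  have hmemR : ∀ i, φ i ∈ R := fun i => by simp [hR]
  set T : Finset (Fin k) := univ.filter (fun i => φ i ∉ U) with hT
  have hRU : (R \ U).card = T.card := by
    have : R \ U = T.image φ := by
      ext x
      simp only [hR, hT, mem_sdiff, mem_image, mem_univ, true_and, mem_filter]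
      constructor
      · rintro ⟨⟨i, rfl⟩, h⟩; exact ⟨i, h, rfl⟩
      · rintro ⟨i, h, rfl⟩; exact ⟨⟨i, rfl⟩, h⟩
    rw [this, Finset.card_image_of_injective _ hφ]
  have hsum : (R ∩ U).card + T.card = k := by
    rw [← hRU, ← hRc]; exact Finset.card_inter_add_card_sdiff R U
  have hs1 : 1 ≤ (R ∩ U).card := Finset.card_pos.2 ⟨φ b, by simp [hmemR, hb]⟩
  have hn1 : 1 ≤ T.card := Finset.card_pos.2 ⟨a, by simp [hT, ha]⟩
  -- all pairs in R, not both in U
  set D0 : Finset (Sym2 V) := R.sym2 \ (R ∩ U).sym2 with hD0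
  have hD0c : 2 * D0.card + ((R ∩ U).card + 1) * (R ∩ U).card = (2 * m + 3) * (2 * m + 2) := by
    have hsub : (R ∩ U).sym2 ⊆ R.sym2 := Finset.sym2_mono Finset.inter_subset_left
    have h1 : D0.card + ((R ∩ U).sym2).card = (R.sym2).card :=
      Finset.card_sdiff_add_card_eq_card hsub
    have h2 := two_choose (R ∩ U).card
    have h3 := two_choose R.card
    rw [← Finset.card_sym2] at h2 h3
    rw [hRc, hk] at h3
    have : 2 * D0.card + 2 * ((R ∩ U).sym2).card = 2 * (R.sym2).card := by omega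
    rw [h2, h3] at this
    rw [this]
  set Dg : Finset (Sym2 V) := (R \ U).image (fun x => s(x, x)) with hDg
  have hDgc : Dg.card ≤ T.card := by rw [← hRU]; exact Finset.card_image_le
  set P : Finset (Fin k × Fin k) := (univ : Finset (Fin k × Fin k)).filter
    (fun p => p.1.val + 1 = p.2.val ∧ (φ p.1 ∉ U ∨ φ p.2 ∉ U)) with hP
  set Ct : Finset (Sym2 V) := P.image (fun p => s(φ p.1, φ p.2)) with hCt
  have hPinj1 : Set.InjOn (fun p : Fin k × Fin k => p.1) (P : Set (Fin k × Fin k)) := by
    rintro ⟨i, j⟩ h ⟨i', j'⟩ h' hij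
    simp only [hP, coe_filter, mem_univ, true_and, Set.mem_ofPred_eq] at h h' hij
    subst hij
    have : j = j' := Fin.ext (by omega)
    rw [this]
  have hPinj2 : Set.InjOn (fun p : Fin k × Fin k => p.2) (P : Set (Fin k × Fin k)) := by
    rintro ⟨i, j⟩ h ⟨i', j'⟩ h' hij
    simp only [hP, coe_filter, mem_univ, true_and, Set.mem_ofPred_eq] at h h' hij
    subst hij
    have : i = i' := Fin.ext (by omega)
    rw [this]
  have hCt1 : Ct.card ≤ 2 * m + 1 := by
    refine Finset.card_image_le.trans ?_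
    rw [← Finset.card_image_of_injOn hPinj2]
    have : P.image (fun p => p.2) ⊆ univ.erase (⟨0, by omega⟩ : Fin k) := by
      intro j hj
      obtain ⟨p, hp, rfl⟩ := Finset.mem_image.1 hj
      simp only [hP, mem_filter, mem_univ, true_and] at hp
      refine Finset.mem_erase.2 ⟨fun h => ?_, Finset.mem_univ _⟩
      have := congrArg Fin.val h
      simp only at this
      omega
    refine (Finset.card_le_card this).trans ?_
    rw [Finset.card_erase_of_mem (Finset.mem_univ _), Finset.card_univ, Fintype.card_fin]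
    omega
  have hCt2 : Ct.card ≤ 2 * T.card := by
    refine Finset.card_image_le.trans ?_
    have hsub : P ⊆ P.filter (fun p => φ p.1 ∉ U) ∪ P.filter (fun p => φ p.2 ∉ U) := by
      intro p hp
      have hp' := hp
      simp only [hP, mem_filter, mem_univ, true_and] at hp
      rcases hp.2 with h | h
      · exact Finset.mem_union_left _ (Finset.mem_filter.2 ⟨hp', h⟩)
      · exact Finset.mem_union_right _ (Finset.mem_filter.2 ⟨hp', h⟩)
    refine (Finset.card_le_card hsub).trans ((Finset.card_union_le _ _).trans ?_)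
    have e1 : (P.filter (fun p => φ p.1 ∉ U)).card ≤ T.card := by
      refine Finset.card_le_card_of_injOn (fun p => p.1) ?_
        (hPinj1.mono (by intro p hp; exact (Finset.mem_filter.1 hp).1))
      intro p hp
      simp only [hT, coe_filter, mem_univ, true_and, Set.mem_ofPred_eq] at hp ⊢
      exact hp.2
    have e2 : (P.filter (fun p => φ p.2 ∉ U)).card ≤ T.card := by
      refine Finset.card_le_card_of_injOn (fun p => p.2) ?_
        (hPinj2.mono (by intro p hp; exact (Finset.mem_filter.1 hp).1))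
      intro p hp
      simp only [hT, coe_filter, mem_univ, true_and, Set.mem_ofPred_eq] at hp ⊢
      exact hp.2
    omega
  set D1 : Finset (Sym2 V) := (D0 \ Dg) \ Ct with hD1
  have hD1c : D0.card ≤ D1.card + Dg.card + Ct.card := by
    have h1 := Finset.le_card_sdiff Ct (D0 \ Dg)
    have h2 := Finset.le_card_sdiff Dg D0
    rw [hD1]
    omega
  set D2 : Finset (Sym2 V) := (C \ R).image (fun c => s(φ a, c)) with hD2
  have hD2c : D2.card = (C \ R).card :=
    Finset.card_image_of_injective _ (fun x y h => Sym2.congr_right.1 h)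
  have hCR : (C \ R).card + (C ∩ R).card = m := by
    rw [← hC, add_comm]; exact Finset.card_inter_add_card_sdiff C R
  have hcr2 : (C ∩ R).card ≤ (R ∩ U).card := by
    refine Finset.card_le_card ?_
    intro x hx
    rw [Finset.mem_inter] at hx ⊢
    exact ⟨hx.2, hCU hx.1⟩
  have hdisj : Disjoint D1 D2 := by
    rw [Finset.disjoint_left]
    intro e he he2
    obtain ⟨c, hc, rfl⟩ := Finset.mem_image.1 he2
    have : s(φ a, c) ∈ R.sym2 :=
      (Finset.mem_sdiff.1 (Finset.mem_sdiff.1 (Finset.mem_sdiff.1 he).1).1).1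
    rw [Finset.mk_mem_sym2_iff] at this
    exact (Finset.mem_sdiff.1 hc).2 this.2
  have hsub : D1 ∪ D2 ⊆ (cp φ ∪ st C (φ a)) \ U.sym2 := by
    refine Finset.union_subset ?_ ?_
    · intro e he
      rw [hD1, Finset.mem_sdiff, Finset.mem_sdiff, hD0, Finset.mem_sdiff] at he
      obtain ⟨⟨⟨he1, he2⟩, he3⟩, he4⟩ := he
      induction e using Sym2.ind with
      | _ x y =>
        rw [Finset.mk_mem_sym2_iff] at he1 he2
        obtain ⟨hx, hy⟩ := he1
        have hnu : ¬ (x ∈ U ∧ y ∈ U) := fun h =>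
          he2 ⟨Finset.mem_inter.2 ⟨hx, h.1⟩, Finset.mem_inter.2 ⟨hy, h.2⟩⟩
        obtain ⟨i, -, rfl⟩ := Finset.mem_image.1 hx
        obtain ⟨j, -, rfl⟩ := Finset.mem_image.1 hy
        have hij : i ≠ j := by
          rintro rfl
          apply he3
          refine Finset.mem_image.2 ⟨φ i, Finset.mem_sdiff.2 ⟨hx, fun h => hnu ⟨h, h⟩⟩, rfl⟩
        have hnu' : φ i ∉ U ∨ φ j ∉ U := by tauto
        refine Finset.mem_sdiff.2 ⟨Finset.mem_union_left _ ?_, ?_⟩
        · have hne : i.val ≠ j.val := fun h => hij (Fin.ext h)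
          rcases lt_or_gt_of_ne hne with hlt | hlt
          · refine Finset.mem_image.2 ⟨(i, j), Finset.mem_filter.2 ⟨Finset.mem_univ _, ?_⟩, rfl⟩
            by_contra hcon
            apply he4
            exact Finset.mem_image.2 ⟨(i, j), Finset.mem_filter.2 ⟨Finset.mem_univ _,
              by simp only at hcon ⊢; omega, hnu'⟩, rfl⟩
          · refine Finset.mem_image.2 ⟨(j, i), Finset.mem_filter.2 ⟨Finset.mem_univ _, ?_⟩,
              Sym2.eq_swap⟩
            by_contra hcon
            apply he4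
            exact Finset.mem_image.2 ⟨(j, i), Finset.mem_filter.2 ⟨Finset.mem_univ _,
              by simp only at hcon ⊢; omega, hnu'.symm⟩, Sym2.eq_swap⟩
        · rw [Finset.mk_mem_sym2_iff]; exact hnu
    · intro e he
      obtain ⟨c, hc, rfl⟩ := Finset.mem_image.1 he
      refine Finset.mem_sdiff.2 ⟨Finset.mem_union_right _ ?_, ?_⟩
      · exact Finset.mem_image.2 ⟨c, (Finset.mem_sdiff.1 hc).1, rfl⟩
      · rw [Finset.mk_mem_sym2_iff]; exact fun h => ha h.1
  have hfin := Finset.card_le_card hsub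
  rw [Finset.card_union_of_disjoint hdisj] at hfin
  refine le_trans ?_ hfin
  exact arith m (R ∩ U).card T.card D0.card D1.card D2.card Ct.card (C ∩ R).card Dg.card hm hs1
    hn1 (by omega) hD0c hD1c hDgc hCt1 hCt2 (by omega) (by omega) hcr2

end Pool.Agent.R46.PkFree
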