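import Mathlib

/-!
# Uniform probability on functions `E → Fin q`: elementary counting lemmas
-/

set_option autoImplicit false

namespace Pool.Agent.R46.PkFree

open Finset

variable {E : Type*} [Fintype E] [DecidableEq E] {q : ℕ}

/-- uniform probability of a predicate on `E → Fin q`. -/
noncomputable def mu (P : (E → Fin q) → Prop) : ℝ :=
  by classical exact ((univ.filter P).card : ℝ) / (Fintype.card (E → Fin q) : ℝ)

theorem mu_def (P : (E → Fin q) → Prop) [DecidablePred P] :
    mu P = ((univ.filter P).card : ℝ) / (Fintype.card (E → Fin q) : ℝ) := by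
  unfold mu
  congr!

theorem mu_nonneg (P : (E → Fin q) → Prop) : 0 ≤ mu P := by
  unfold mu; positivity

theorem mu_mono {P Q : (E → Fin q) → Prop} (h : ∀ ω, P ω → Q ω) : mu P ≤ mu Q := by
  classical
  rw [mu_def, mu_def]
  gcongr
  exact h _

theorem mu_congr {P Q : (E → Fin q) → Prop} (h : ∀ ω, P ω ↔ Q ω) : mu P = mu Q :=
  le_antisymm (mu_mono fun ω => (h ω).1) (mu_mono fun ω => (h ω).2)

theorem card_pos' (hq : 0 < q) : 0 < (Fintype.card (E → Fin q) : ℝ) := by
  have : Nonempty (E → Fin q) := ⟨fun _ => ⟨0, hq⟩⟩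
  exact_mod_cast Fintype.card_pos

theorem mu_true (hq : 0 < q) : mu (fun _ : E → Fin q => True) = 1 := by
  classical
  rw [mu_def, Finset.filter_true, Finset.card_univ]
  exact div_self (card_pos' hq).ne'

theorem mu_le_one (hq : 0 < q) (P : (E → Fin q) → Prop) : mu P ≤ 1 := by
  rw [← mu_true (E := E) hq]
  exact mu_mono fun _ _ => trivial

theorem mu_or (P Q : (E → Fin q) → Prop) : mu (fun ω => P ω ∨ Q ω) ≤ mu P + mu Q := by
  classical
  rw [mu_def, mu_def, mu_def, ← add_div]
  gcongr
  rw [Finset.filter_or]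
  exact_mod_cast Finset.card_union_le _ _

theorem mu_add_compl (P Q : (E → Fin q) → Prop) :
    mu (fun ω => P ω ∧ Q ω) + mu (fun ω => P ω ∧ ¬ Q ω) = mu P := by
  classical
  rw [mu_def, mu_def, mu_def, ← add_div]
  congr 1
  have := Finset.card_filter_add_card_filter_not (s := univ.filter P) (p := Q)
  rw [Finset.filter_filter, Finset.filter_filter] at this
  exact_mod_cast this

theorem mu_not (hq : 0 < q) (P : (E → Fin q) → Prop) :
    mu (fun ω => ¬ P ω) = 1 - mu P := by
  have := mu_add_compl (fun _ : E → Fin q => True) P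
  simp only [true_and] at this
  rw [mu_true hq] at this
  linarith

theorem mu_exists {ι : Type*} (s : Finset ι) (P : ι → (E → Fin q) → Prop) :
    mu (fun ω => ∃ i ∈ s, P i ω) ≤ ∑ i ∈ s, mu (P i) := by
  classical
  induction s using Finset.induction_on with
  | empty => simp [mu]
  | insert a s ha ih =>
    rw [Finset.sum_insert ha]
    refine le_trans (mu_mono (Q := fun ω => P a ω ∨ ∃ i ∈ s, P i ω) ?_) ?_
    · rintro ω ⟨i, hi, h⟩
      rcases Finset.mem_insert.1 hi with rfl | hi
      · exact Or.inl h
      · exact Or.inr ⟨i, hi, h⟩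
    · exact (mu_or _ _).trans (by gcongr)

theorem exists_of_mu_lt (hq : 0 < q) {P : (E → Fin q) → Prop} (h : mu P < 1) : ∃ ω, ¬ P ω := by
  by_contra hcon
  push Not at hcon
  have : mu P = 1 := by
    rw [← mu_true (E := E) hq]
    exact mu_congr fun ω => ⟨fun _ => trivial, fun _ => hcon ω⟩
  linarith

/-- `P` only depends on the coordinates in `X`. -/
def Dep (P : (E → Fin q) → Prop) (X : Finset E) : Prop :=
  ∀ ω ω' : E → Fin q, (∀ e ∈ X, ω e = ω' e) → P ω → P ω'

/-- `P` only depends on the coordinates outside `X`. -/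
def DepC (P : (E → Fin q) → Prop) (X : Finset E) : Prop :=
  ∀ ω ω' : E → Fin q, (∀ e ∉ X, ω e = ω' e) → P ω → P ω'

theorem card_indep (X : Finset E) {P Q : (E → Fin q) → Prop} [DecidablePred P] [DecidablePred Q]
    (hP : Dep P X) (hQ : DepC Q X) :
    (univ.filter fun ω => P ω ∧ Q ω).card * Fintype.card (E → Fin q) =
      (univ.filter P).card * (univ.filter Q).card := by
  classical
  rw [← Finset.card_univ, ← Finset.card_product, ← Finset.card_product]
  refine Finset.card_nbij'
    (fun p => (fun e => if e ∈ X then p.1 e else p.2 e, fun e => if e ∈ X then p.2 e else p.1 e))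
    (fun p => (fun e => if e ∈ X then p.1 e else p.2 e, fun e => if e ∈ X then p.2 e else p.1 e))
    ?_ ?_ ?_ ?_
  · rintro ⟨ω, ω'⟩ h
    simp only [coe_product, Set.mem_prod, Finset.mem_coe, mem_filter, mem_univ, true_and,
      and_true] at h ⊢
    exact ⟨hP ω _ (fun e he => by simp [he]) h.1, hQ ω _ (fun e he => by simp [he]) h.2⟩
  · rintro ⟨ω, ω'⟩ h
    simp only [coe_product, Set.mem_prod, Finset.mem_coe, mem_filter, mem_univ, true_and,
      and_true] at h ⊢
    exact ⟨hP ω _ (fun e he => by simp [he]) h.1, hQ ω' _ (fun e he => by simp [he]) h.2⟩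
  · rintro ⟨ω, ω'⟩ _
    ext e <;> by_cases he : e ∈ X <;> simp [he]
  · rintro ⟨ω, ω'⟩ _
    ext e <;> by_cases he : e ∈ X <;> simp [he]

theorem mu_indep (hq : 0 < q) (X : Finset E) {P Q : (E → Fin q) → Prop}
    (hP : Dep P X) (hQ : DepC Q X) : mu (fun ω => P ω ∧ Q ω) = mu P * mu Q := by
  classical
  have h := card_indep X hP hQ
  have hc := card_pos' (E := E) hq
  rw [mu_def, mu_def, mu_def]
  have h' : (((univ.filter fun ω => P ω ∧ Q ω).card : ℝ)) * (Fintype.card (E → Fin q) : ℝ) =
      ((univ.filter P).card : ℝ) * ((univ.filter Q).card : ℝ) := by exact_mod_cast h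
  rw [div_mul_div_comm, ← h', mul_div_mul_right _ _ hc.ne']

/-- probability that all coordinates in `A` are zero. -/
theorem mu_zero [NeZero q] (A : Finset E) :
    mu (fun ω : E → Fin q => ∀ e ∈ A, ω e = 0) = (1 / (q : ℝ)) ^ A.card := by
  classical
  have hq : 0 < q := Nat.pos_of_ne_zero (NeZero.ne q)
  induction A using Finset.induction_on with
  | empty => simpa using mu_true (E := E) hq
  | insert a A ha ih =>
    rw [Finset.card_insert_of_notMem ha, pow_succ, ← ih]
    have h1 : mu (fun ω : E → Fin q => ∀ e ∈ insert a A, ω e = 0) =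
        mu (fun ω : E → Fin q => ω a = 0 ∧ ∀ e ∈ A, ω e = 0) := by
      refine mu_congr fun ω => ?_
      simp [Finset.mem_insert]
    rw [h1, mu_indep hq {a}, mul_comm]
    · congr 1
      have h2 : ∀ j : Fin q, mu (fun ω : E → Fin q => ω a = j) =
          mu (fun ω : E → Fin q => ω a = 0) := by
        intro j
        rw [mu_def, mu_def]
        congr 2
        refine Finset.card_nbij' (fun ω => Function.update ω a 0)
          (fun ω => Function.update ω a j) ?_ ?_ ?_ ?_
        · intro ω _; simp
        · intro ω _; simp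
        · intro ω h
          simp only [Finset.mem_coe, mem_filter, mem_univ, true_and] at h
          simp [← h]
        · intro ω h
          simp only [Finset.mem_coe, mem_filter, mem_univ, true_and] at h
          simp [← h]
      have h3 : ∑ j : Fin q, mu (fun ω : E → Fin q => ω a = j) = 1 := by
        simp only [mu_def]
        rw [← Finset.sum_div, div_eq_one_iff_eq (card_pos' hq).ne', ← Nat.cast_sum]
        congr 1
        rw [← Finset.card_univ (α := E → Fin q)]
        exact (Finset.card_eq_sum_card_fiberwise (s := (univ : Finset (E → Fin q)))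
          (f := fun ω : E → Fin q => ω a)
          (t := univ) (fun _ _ => by simp)).symm
      simp only [h2, Finset.sum_const, Finset.card_univ, Fintype.card_fin, nsmul_eq_mul] at h3
      have hq' : (q : ℝ) ≠ 0 := by exact_mod_cast hq.ne'
      field_simp
      linarith
    · intro ω ω' h h'
      rw [← h a (by simp)]; exact h'
    · intro ω ω' h h' e he
      rw [← h e (by simp; rintro rfl; exact ha he)]; exact h' e he

/-- a product bound for events depending on disjoint sets of coordinates. -/
theorem mu_forall_le (hq : 0 < q) {ι : Type*} [DecidableEq ι] (s : Finset ι)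
    (P : ι → (E → Fin q) → Prop) (X : ι → Finset E) (ρ : ℝ) (hρ0 : 0 ≤ ρ)
    (hdep : ∀ i ∈ s, Dep (P i) (X i))
    (hdis : ∀ i ∈ s, ∀ j ∈ s, i ≠ j → Disjoint (X i) (X j))
    (hρ : ∀ i ∈ s, mu (P i) ≤ ρ) :
    mu (fun ω => ∀ i ∈ s, P i ω) ≤ ρ ^ s.card := by
  classical
  induction s using Finset.induction_on with
  | empty => simpa using mu_le_one hq _
  | insert a s ha ih =>
    have h1 : mu (fun ω : E → Fin q => ∀ i ∈ insert a s, P i ω) =
        mu (fun ω : E → Fin q => P a ω ∧ ∀ i ∈ s, P i ω) := by
      refine mu_congr fun ω => ?_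
      simp [Finset.mem_insert]
    rw [h1, mu_indep hq (X a), Finset.card_insert_of_notMem ha, pow_succ, mul_comm]
    · refine mul_le_mul (ih ?_ ?_ ?_) (hρ a (by simp)) (mu_nonneg _) (by positivity)
      · intro i hi; exact hdep i (by simp [hi])
      · intro i hi j hj; exact hdis i (by simp [hi]) j (by simp [hj])
      · intro i hi; exact hρ i (by simp [hi])
    · exact hdep a (by simp)
    · intro ω ω' h h' i hi
      refine hdep i (by simp [hi]) ω ω' (fun e he => h e fun hea => ?_) (h' i hi)
      have hne : i ≠ a := fun hh => ha (hh ▸ hi)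
      exact Finset.disjoint_left.1 (hdis i (by simp [hi]) a (by simp) hne) he hea

end Pool.Agent.R46.PkFree
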