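import Mathlib
import Pool.Agent.R46.PkFree.Prob
import Pool.Agent.R46.PkFree.Edges

/-!
# Sequences of copies and their probability
-/

set_option autoImplicit false

namespace Pool.Agent.R46.PkFree

open Finset

variable {V : Type*} [Fintype V] [DecidableEq V] {q : ℕ} [NeZero q]

/-- the copy `φ` leaves `U` at `a` and meets `U`. -/
def Val {k : ℕ} (U : Finset V) (φ : Fin k → V) (a : Fin k) : Prop :=
  Function.Injective φ ∧ φ a ∉ U ∧ ∃ b, φ b ∈ U

/-- there is a sequence of `s` copies in `ω`, starting from the set `U`. -/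
def Sq (k : ℕ) (C : Finset V) (ω : Sym2 V → Fin q) : ℕ → Finset V → Prop
  | 0, _ => True
  | s + 1, U => ∃ φ : Fin k → V, ∃ a : Fin k, Val U φ a ∧
      (∀ e ∈ cp φ ∪ st C (φ a), ω e = 0) ∧ Sq k C ω s (U ∪ univ.image φ)

omit [Fintype V] in
theorem eg_sub {k : ℕ} (φ : Fin k → V) (C U : Finset V) (hCU : C ⊆ U) (a : Fin k) :
    cp φ ∪ st C (φ a) ⊆ (U ∪ univ.image φ).sym2 := by
  refine Finset.union_subset ?_ ?_
  · intro e he
    obtain ⟨p, -, rfl⟩ := Finset.mem_image.1 he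
    rw [Finset.mk_mem_sym2_iff]
    simp
  · intro e he
    obtain ⟨c, hc, rfl⟩ := Finset.mem_image.1 he
    rw [Finset.mk_mem_sym2_iff]
    simp [hCU hc]

theorem mu_Sq {k : ℕ} (C : Finset V) (B : ℕ) (τ : ℝ) (hτ : 0 ≤ τ)
    (hT : ∀ U : Finset V, C ⊆ U → U.card ≤ B → ∀ s : Finset ((Fin k → V) × Fin k),
      (∀ p ∈ s, Val U p.1 p.2) →
      ∑ p ∈ s, (1 / (q : ℝ)) ^ ((cp p.1 ∪ st C (p.1 p.2)) \ U.sym2).card ≤ τ)
    (s : ℕ) : ∀ (U : Finset V) (A : Finset (Sym2 V)), C ⊆ U → A ⊆ U.sym2 → U.card + s * k ≤ B →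
      mu (fun ω : Sym2 V → Fin q => (∀ e ∈ A, ω e = 0) ∧ Sq k C ω s U) ≤
        (1 / (q : ℝ)) ^ A.card * τ ^ s := by
  classical
  have hq : 0 < q := Nat.pos_of_ne_zero (NeZero.ne q)
  have hq1 : (1 : ℝ) / q ≤ 1 := by
    rw [div_le_one (by exact_mod_cast hq)]
    exact_mod_cast hq
  have hq0 : (0 : ℝ) ≤ 1 / q := by positivity
  induction s with
  | zero =>
    intro U A _ _ _
    rw [pow_zero, mul_one, ← mu_zero]
    exact mu_mono fun ω h => h.1
  | succ s ih =>
    intro U A hCU hA hB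
    set F : Finset ((Fin k → V) × Fin k) := univ.filter (fun p => Val U p.1 p.2) with hF
    have h1 : mu (fun ω : Sym2 V → Fin q => (∀ e ∈ A, ω e = 0) ∧ Sq k C ω (s + 1) U) ≤
        mu (fun ω : Sym2 V → Fin q => ∃ p ∈ F,
          (∀ e ∈ A ∪ (cp p.1 ∪ st C (p.1 p.2)), ω e = 0) ∧
            Sq k C ω s (U ∪ univ.image p.1)) := by
      refine mu_mono ?_
      rintro ω ⟨hA0, φ, a, hv, hz, hs⟩
      refine ⟨(φ, a), by simp [hF, hv], ?_, hs⟩
      intro e he
      rcases Finset.mem_union.1 he with he | he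
      · exact hA0 e he
      · exact hz e he
    refine h1.trans ((mu_exists F _).trans ?_)
    have h2 : ∀ p ∈ F, mu (fun ω : Sym2 V → Fin q =>
          (∀ e ∈ A ∪ (cp p.1 ∪ st C (p.1 p.2)), ω e = 0) ∧
            Sq k C ω s (U ∪ univ.image p.1)) ≤
        ((1 / (q : ℝ)) ^ A.card * τ ^ s) *
          (1 / (q : ℝ)) ^ ((cp p.1 ∪ st C (p.1 p.2)) \ U.sym2).card := by
      intro p hp
      have hcard : (U ∪ univ.image p.1).card ≤ U.card + k := by
        refine (Finset.card_union_le _ _).trans ?_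
        have := Finset.card_image_le (s := (univ : Finset (Fin k))) (f := p.1)
        rw [Finset.card_univ, Fintype.card_fin] at this
        omega
      have hsub : A ∪ (cp p.1 ∪ st C (p.1 p.2)) ⊆ (U ∪ univ.image p.1).sym2 :=
        Finset.union_subset (hA.trans (Finset.sym2_mono Finset.subset_union_left))
          (eg_sub _ _ _ hCU _)
      have h3 := ih (U ∪ univ.image p.1) (A ∪ (cp p.1 ∪ st C (p.1 p.2)))
        (hCU.trans Finset.subset_union_left) hsub
        (by rw [add_mul, one_mul] at hB; omega)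
      refine h3.trans ?_
      have hc : A.card + ((cp p.1 ∪ st C (p.1 p.2)) \ U.sym2).card ≤
          (A ∪ (cp p.1 ∪ st C (p.1 p.2))).card := by
        rw [← Finset.card_union_of_disjoint]
        · exact Finset.card_le_card (Finset.union_subset_union_right Finset.sdiff_subset)
        · rw [Finset.disjoint_left]
          intro e he he'
          exact (Finset.mem_sdiff.1 he').2 (hA he)
      have h4 : (1 / (q : ℝ)) ^ (A ∪ (cp p.1 ∪ st C (p.1 p.2))).card ≤
          (1 / (q : ℝ)) ^ (A.card + ((cp p.1 ∪ st C (p.1 p.2)) \ U.sym2).card) :=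
        pow_le_pow_of_le_one hq0 hq1 hc
      rw [pow_add] at h4
      calc (1 / (q : ℝ)) ^ (A ∪ (cp p.1 ∪ st C (p.1 p.2))).card * τ ^ s
          ≤ ((1 / (q : ℝ)) ^ A.card *
            (1 / (q : ℝ)) ^ ((cp p.1 ∪ st C (p.1 p.2)) \ U.sym2).card) * τ ^ s := by gcongr
        _ = _ := by ring
    refine (Finset.sum_le_sum h2).trans ?_
    rw [← Finset.mul_sum]
    have h5 := hT U hCU (by rw [add_mul, one_mul] at hB; omega) F
      (fun p hp => (Finset.mem_filter.1 hp).2)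
    calc ((1 / (q : ℝ)) ^ A.card * τ ^ s) * _ ≤ ((1 / (q : ℝ)) ^ A.card * τ ^ s) * τ := by
          gcongr
      _ = _ := by ring

theorem T_bound {m k : ℕ} (hm : 2 ≤ m) (hk : k = 2 * m + 2) (C : Finset V) (hC : C.card = m)
    (B : ℕ) (U : Finset V) (hCU : C ⊆ U) (hU : U.card ≤ B)
    (s : Finset ((Fin k → V) × Fin k)) (hs : ∀ p ∈ s, Val U p.1 p.2) :
    ∑ p ∈ s, (1 / (q : ℝ)) ^ ((cp p.1 ∪ st C (p.1 p.2)) \ U.sym2).card ≤
      (1 / (q : ℝ)) * (k * (B + Fintype.card V * (1 / (q : ℝ)) ^ m) ^ k) := by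
  classical
  have hq : 0 < q := Nat.pos_of_ne_zero (NeZero.ne q)
  have hq1 : (1 : ℝ) / q ≤ 1 := by
    rw [div_le_one (by exact_mod_cast hq)]
    exact_mod_cast hq
  have hq0 : (0 : ℝ) ≤ 1 / q := by positivity
  set w : V → ℝ := fun x => if x ∈ U then 1 else (1 / (q : ℝ)) ^ m with hw
  have hw0 : ∀ x, 0 ≤ w x := by
    intro x; simp only [hw]; split_ifs <;> positivity
  have h1 : ∀ p ∈ s, (1 / (q : ℝ)) ^ ((cp p.1 ∪ st C (p.1 p.2)) \ U.sym2).card ≤
      (1 / (q : ℝ)) * ∏ i, w (p.1 i) := by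
    intro p hp
    obtain ⟨hinj, ha, b, hb⟩ := hs p hp
    have hc := new_card hm hk p.1 hinj C U hC hCU p.2 b ha hb
    refine (pow_le_pow_of_le_one hq0 hq1 hc).trans ?_
    rw [pow_succ, mul_comm]
    refine mul_le_mul_of_nonneg_left (le_of_eq ?_) hq0
    rw [pow_mul]
    simp only [hw]
    rw [Finset.prod_ite]
    simp
  refine (Finset.sum_le_sum h1).trans ?_
  rw [← Finset.mul_sum]
  refine mul_le_mul_of_nonneg_left ?_ hq0
  have h2 : ∑ p ∈ s, ∏ i, w (p.1 i) ≤ ∑ p : (Fin k → V) × Fin k, ∏ i, w (p.1 i) :=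
    Finset.sum_le_sum_of_subset_of_nonneg (Finset.subset_univ _)
      (fun p _ _ => Finset.prod_nonneg fun i _ => hw0 _)
  refine h2.trans ?_
  rw [Fintype.sum_prod_type]
  simp only [Finset.sum_const, Finset.card_univ, Fintype.card_fin, nsmul_eq_mul]
  rw [← Finset.mul_sum]
  refine mul_le_mul_of_nonneg_left ?_ (by positivity)
  rw [← Fintype.sum_pow]
  have h3 : ∑ x, w x ≤ B + Fintype.card V * (1 / (q : ℝ)) ^ m := by
    simp only [hw]
    rw [Finset.sum_ite]
    simp only [Finset.sum_const, nsmul_eq_mul, mul_one]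
    have e1 : ((univ.filter (fun x => x ∈ U)).card : ℝ) ≤ B := by
      have : univ.filter (fun x => x ∈ U) = U := by ext x; simp
      rw [this]; exact_mod_cast hU
    have e2 : ((univ.filter (fun x => x ∉ U)).card : ℝ) ≤ Fintype.card V := by
      exact_mod_cast Finset.card_le_univ _
    gcongr
  exact pow_le_pow_left₀ (Finset.sum_nonneg fun x _ => hw0 x) h3 _

end Pool.Agent.R46.PkFree
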