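import Mathlib
import Pool.Agent.R46.PkFree.Seq

/-!
# Existence of a good outcome
-/

set_option autoImplicit false

namespace Pool.Agent.R46.PkFree

open Finset

section
variable {V : Type*} [Fintype V] [DecidableEq V] {q : ℕ} [NeZero q]

/-- `v` is joined to all of `C` but not to `r` and `r'`. -/
def Gd (ω : Sym2 V → Fin q) (C : Finset V) (r r' v : V) : Prop :=
  (∀ c ∈ C, ω s(v, c) = 0) ∧ ω s(v, r) ≠ 0 ∧ ω s(v, r') ≠ 0

omit [Fintype V] in
theorem st_card (C : Finset V) (v : V) : (st C v).card = C.card :=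
  Finset.card_image_of_injective _ (fun _ _ h => Sym2.congr_right.1 h)

theorem mu_st (C : Finset V) (v : V) :
    mu (fun ω : Sym2 V → Fin q => ∀ c ∈ C, ω s(v, c) = 0) = (1 / (q : ℝ)) ^ C.card := by
  rw [← st_card C v, ← mu_zero]
  refine mu_congr fun ω => ?_
  constructor
  · intro h e he
    obtain ⟨c, hc, rfl⟩ := Finset.mem_image.1 he
    exact h c hc
  · intro h c hc
    exact h _ (Finset.mem_image.2 ⟨c, hc, rfl⟩)

theorem mu_st' (C : Finset V) (v r : V) (hr : r ∉ C) :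
    mu (fun ω : Sym2 V → Fin q => (∀ c ∈ C, ω s(v, c) = 0) ∧ ω s(v, r) = 0) =
      (1 / (q : ℝ)) ^ (C.card + 1) := by
  rw [← Finset.card_insert_of_notMem hr, ← mu_st (insert r C) v]
  refine mu_congr fun ω => ?_
  constructor
  · rintro ⟨h, h'⟩ c hc
    rcases Finset.mem_insert.1 hc with rfl | hc
    · exact h'
    · exact h c hc
  · intro h
    exact ⟨fun c hc => h c (Finset.mem_insert_of_mem hc), h r (Finset.mem_insert_self _ _)⟩

theorem mu_not_Gd (hq : 4 ≤ q) (C : Finset V) (v r r' : V) (hr : r ∉ C) (hr' : r' ∉ C) :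
    mu (fun ω : Sym2 V → Fin q => ¬ Gd ω C r r' v) ≤ 1 - (1 / (q : ℝ)) ^ C.card / 2 := by
  have hq0 : 0 < q := by omega
  rw [mu_not hq0]
  have h1 := mu_add_compl (fun ω : Sym2 V → Fin q => ∀ c ∈ C, ω s(v, c) = 0)
    (fun ω => ω s(v, r) ≠ 0 ∧ ω s(v, r') ≠ 0)
  rw [mu_st] at h1
  have h2 : mu (fun ω : Sym2 V → Fin q => (∀ c ∈ C, ω s(v, c) = 0) ∧
      ¬ (ω s(v, r) ≠ 0 ∧ ω s(v, r') ≠ 0)) ≤
      (1 / (q : ℝ)) ^ (C.card + 1) + (1 / (q : ℝ)) ^ (C.card + 1) := by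
    rw [← mu_st' C v r hr]
    nth_rewrite 2 [mu_st' C v r hr]
    rw [← mu_st' C v r' hr']
    refine le_trans (mu_mono ?_) (mu_or _ _)
    rintro ω ⟨h, h'⟩
    by_cases h3 : ω s(v, r) = 0
    · exact Or.inl ⟨h, h3⟩
    · right
      refine ⟨h, ?_⟩
      by_contra h4
      exact h' ⟨h3, h4⟩
  have h3 : mu (fun ω : Sym2 V → Fin q => (∀ c ∈ C, ω s(v, c) = 0) ∧
      (ω s(v, r) ≠ 0 ∧ ω s(v, r') ≠ 0)) = mu (fun ω : Sym2 V → Fin q => Gd ω C r r' v) := rfl
  rw [h3] at h1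
  have h4 : (1 / (q : ℝ)) ^ (C.card + 1) ≤ (1 / (q : ℝ)) ^ C.card * (1 / 4) := by
    rw [pow_succ]
    have : (1 : ℝ) / q ≤ 1 / 4 := by
      apply one_div_le_one_div_of_le (by norm_num)
      exact_mod_cast hq
    gcongr
  linarith

theorem mu_E1 (hq : 4 ≤ q) (C A : Finset V) (r r' : V) (hr : r ∉ C) (hr' : r' ∉ C) :
    mu (fun ω : Sym2 V → Fin q => ∀ v ∈ univ \ (A ∪ insert r (insert r' C)),
      ¬ Gd ω C r r' v) ≤
      (1 - (1 / (q : ℝ)) ^ C.card / 2) ^ (Fintype.card V - (A.card + C.card + 2)) := by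
  classical
  have hq0 : 0 < q := by omega
  have hp0 : (0 : ℝ) < 1 / q := by positivity
  have hp1 : (1 : ℝ) / q ≤ 1 := by
    rw [div_le_one (by exact_mod_cast hq0)]
    exact_mod_cast hq0
  have hp2 : (1 / (q : ℝ)) ^ C.card ≤ 1 := pow_le_one₀ hp0.le hp1
  have hρ0 : (0 : ℝ) ≤ 1 - (1 / (q : ℝ)) ^ C.card / 2 := by linarith
  have hρ1 : (1 : ℝ) - (1 / (q : ℝ)) ^ C.card / 2 ≤ 1 := by
    have : (0 : ℝ) ≤ (1 / (q : ℝ)) ^ C.card := by positivity
    linarith
  refine (mu_forall_le hq0 _ (fun v ω => ¬ Gd ω C r r' v)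
    (fun v => st (insert r (insert r' C)) v) _ hρ0 ?_ ?_ ?_).trans ?_
  · intro v _ ω ω' h hn hg
    apply hn
    have hh : ∀ x ∈ insert r (insert r' C), ω s(v, x) = ω' s(v, x) := fun x hx =>
      h _ (Finset.mem_image.2 ⟨x, hx, rfl⟩)
    refine ⟨fun c hc => ?_, ?_, ?_⟩
    · rw [hh c (by simp [hc])]; exact hg.1 c hc
    · rw [hh r (by simp)]; exact hg.2.1
    · rw [hh r' (by simp)]; exact hg.2.2
  · intro v hv v' hv' hne
    rw [Finset.disjoint_left]
    intro e he he'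
    obtain ⟨x, hx, rfl⟩ := Finset.mem_image.1 he
    obtain ⟨y, hy, hxy⟩ := Finset.mem_image.1 he'
    rw [Finset.mem_sdiff] at hv hv'
    rw [Sym2.eq_iff] at hxy
    rcases hxy with ⟨h1, -⟩ | ⟨h1, -⟩
    · exact hne h1.symm
    · subst h1
      exact hv'.2 (Finset.mem_union_right _ hx)
  · intro v _
    exact mu_not_Gd hq C v r r' hr hr'
  · refine pow_le_pow_of_le_one hρ0 hρ1 ?_
    have h1 : (A ∪ insert r (insert r' C)).card ≤ A.card + C.card + 2 := by
      refine (Finset.card_union_le _ _).trans ?_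
      have h2 := Finset.card_insert_le r (insert r' C)
      have h3 := Finset.card_insert_le r' C
      omega
    rw [Finset.card_sdiff_of_subset (Finset.subset_univ _), Finset.card_univ]
    omega

theorem mu_exists_le {ι : Type*} (s : Finset ι) (P : ι → (Sym2 V → Fin q) → Prop) (b : ℝ)
    (h : ∀ i ∈ s, mu (P i) ≤ b) : mu (fun ω => ∃ i ∈ s, P i ω) ≤ s.card * b := by
  refine (mu_exists s P).trans ?_
  rw [← nsmul_eq_mul]
  exact Finset.sum_le_card_nsmul _ _ _ h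

end

theorem choose_le_pow' (n r : ℕ) : n.choose r ≤ n ^ r := by
  exact Nat.choose_le_pow n r

/-- numeric choice of the parameter. -/
theorem exists_t (c1 c K : ℕ) (D : ℝ) : ∃ t : ℕ, 4 ≤ t ∧ K ≤ t ∧
    (t : ℝ) ^ c1 * (D * Real.exp (-((t : ℝ) / 2))) < 1 / 3 ∧ (c : ℝ) / t < 1 / 3 := by
  have h1 : Filter.Tendsto (fun n : ℕ => ((n : ℝ) / 2)) Filter.atTop Filter.atTop :=
    tendsto_natCast_atTop_atTop.atTop_div_const (by norm_num)
  have h2 := (Real.tendsto_pow_mul_exp_neg_atTop_nhds_zero c1).comp h1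
  have h3 := h2.const_mul (2 ^ c1 * D)
  rw [mul_zero] at h3
  have h4 := h3.eventually (gt_mem_nhds (show (0 : ℝ) < 1 / 3 by norm_num))
  have h5 := Filter.eventually_ge_atTop (α := ℕ) 4
  have h6 := Filter.eventually_ge_atTop (α := ℕ) K
  have h7 := Filter.eventually_ge_atTop (α := ℕ) (3 * c + 1)
  obtain ⟨t, ht1, ht2, ht3, ht4⟩ := (h4.and (h5.and (h6.and h7))).exists
  refine ⟨t, ht2, ht3, ?_, ?_⟩
  · simp only [Function.comp] at ht1
    calc (t : ℝ) ^ c1 * (D * Real.exp (-((t : ℝ) / 2)))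
        = 2 ^ c1 * D * ((((t : ℝ) / 2) ^ c1) * Real.exp (-((t : ℝ) / 2))) := by
          rw [div_pow]
          field_simp
      _ < 1 / 3 := ht1
  · have : (0 : ℝ) < t := by exact_mod_cast (by omega : 0 < t)
    rw [div_lt_div_iff₀ this (by norm_num)]
    have h8 : ((3 * c + 1 : ℕ) : ℝ) ≤ t := by exact_mod_cast ht4
    push_cast at h8
    linarith

end Pool.Agent.R46.PkFree
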