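import Mathlib
import Pool.Agent.R46.PkFree.Exist

/-!
# Existence of a good outcome: combination
-/

set_option autoImplicit false

namespace Pool.Agent.R46.PkFree

open Finset

theorem exists_omega (m : ℕ) (hm : 2 ≤ m) :
    ∃ (N q K' B : ℕ) (_ : NeZero q) (ω : Sym2 (Fin N) → Fin q),
      m + K' * (2 * m + 2) ≤ B ∧ B + m + 3 ≤ N ∧
      (∀ C A : Finset (Fin N), C.card = m → A.card ≤ B → ∀ r r' : Fin N, r ∉ C → r' ∉ C →
        ∃ v, v ∉ A ∧ v ∉ C ∧ v ≠ r ∧ v ≠ r' ∧ Gd ω C r r' v) ∧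
      (∀ C : Finset (Fin N), C.card = m → ¬ Sq (2 * m + 2) C ω K' C) := by
  classical
  obtain ⟨k, hk⟩ : ∃ k, k = 2 * m + 2 := ⟨_, rfl⟩
  rw [← hk]
  obtain ⟨e, he⟩ : ∃ e, e = m * (k + 1) + 1 := ⟨_, rfl⟩
  obtain ⟨K', hK'⟩ : ∃ K', K' = m * e + 1 := ⟨_, rfl⟩
  obtain ⟨B, hB⟩ : ∃ B, B = m + K' * k := ⟨_, rfl⟩
  obtain ⟨t, ht4, htB, ht1, ht2⟩ := exists_t (e * (m + B + 2)) ((k * (B + 1) ^ k) ^ K') (B + m + 3)
    (Real.exp ((B + m + 2 : ℝ) / 2))
  have ht0 : 0 < t := by omega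
  have htR : (0 : ℝ) < t := by exact_mod_cast ht0
  have ht1R : (1 : ℝ) ≤ t := by exact_mod_cast (by omega : 1 ≤ t)
  set q : ℕ := t ^ (k + 1) with hq
  have hq0 : 0 < q := by positivity
  haveI : NeZero q := ⟨hq0.ne'⟩
  have hq4 : 4 ≤ q := by
    calc 4 ≤ t := ht4
      _ = t ^ 1 := (pow_one t).symm
      _ ≤ t ^ (k + 1) := Nat.pow_le_pow_right ht0 (by omega)
  set N : ℕ := t ^ e with hN
  have hNt : t ≤ N := by
    calc t = t ^ 1 := (pow_one t).symm
      _ ≤ t ^ e := Nat.pow_le_pow_right ht0 (by omega)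
  have hqR : (q : ℝ) = (t : ℝ) ^ (k + 1) := by rw [hq]; push_cast; ring
  have hNR : (N : ℝ) = (t : ℝ) ^ e := by rw [hN]; push_cast; ring
  have hNp : (N : ℝ) * (1 / (q : ℝ)) ^ m = t := by
    rw [hqR, hNR, he, one_div, inv_pow, ← pow_mul, pow_succ, mul_comm (k + 1) m]
    field_simp
  have hp0 : (0 : ℝ) < 1 / q := by positivity
  have hp1 : (1 : ℝ) / q ≤ 1 := by
    rw [div_le_one (by exact_mod_cast hq0)]
    exact_mod_cast hq0
  have hpm0 : (0 : ℝ) < (1 / (q : ℝ)) ^ m := by positivity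
  have hpm1 : (1 / (q : ℝ)) ^ m ≤ 1 := pow_le_one₀ hp0.le hp1
  -- first bad event
  set S1 : Finset (Finset (Fin N) × Finset (Fin N) × Fin N × Fin N) :=
    ((powersetCard m univ) ×ˢ (powersetCard B univ) ×ˢ univ ×ˢ univ).filter
      (fun x => x.2.2.1 ∉ x.1 ∧ x.2.2.2 ∉ x.1) with hS1
  set P1 : (Finset (Fin N) × Finset (Fin N) × Fin N × Fin N) → (Sym2 (Fin N) → Fin q) → Prop :=
    fun x ω => ∀ v ∈ univ \ (x.2.1 ∪ insert x.2.2.1 (insert x.2.2.2 x.1)),
      ¬ Gd ω x.1 x.2.2.1 x.2.2.2 v with hP1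
  set b1 : ℝ := Real.exp ((B + m + 2 : ℝ) / 2) * Real.exp (-((t : ℝ) / 2)) with hb1
  have hb10 : 0 ≤ b1 := by positivity
  have hS1c : (S1.card : ℝ) ≤ (t : ℝ) ^ (e * (m + B + 2)) := by
    have h1 : S1.card ≤ N ^ m * (N ^ B * (N * N)) := by
      refine (Finset.card_filter_le _ _).trans ?_
      rw [Finset.card_product, Finset.card_product, Finset.card_product,
        Finset.card_powersetCard, Finset.card_powersetCard, Finset.card_univ, Fintype.card_fin]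
      exact Nat.mul_le_mul (choose_le_pow' _ _) (Nat.mul_le_mul_right _ (choose_le_pow' _ _))
    calc (S1.card : ℝ) ≤ ((N ^ m * (N ^ B * (N * N)) : ℕ) : ℝ) := by exact_mod_cast h1
      _ = (N : ℝ) ^ (m + B + 2) := by push_cast; ring
      _ = _ := by rw [hNR, ← pow_mul]
  have hE1 : ∀ x ∈ S1, mu (P1 x) ≤ b1 := by
    rintro ⟨C, A, r, r'⟩ hx
    simp only [hS1, mem_filter, mem_product, mem_powersetCard, mem_univ, subset_univ, true_and,
      and_true] at hx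
    obtain ⟨⟨hC, hA⟩, hr, hr'⟩ := hx
    refine (mu_E1 hq4 C A r r' hr hr').trans ?_
    rw [hC, hA, Fintype.card_fin, hb1, ← Real.exp_add]
    have h1 : (1 : ℝ) - (1 / (q : ℝ)) ^ m / 2 ≤ Real.exp (-((1 / (q : ℝ)) ^ m / 2)) :=
      Real.one_sub_le_exp_neg _
    have h0 : (0 : ℝ) ≤ 1 - (1 / (q : ℝ)) ^ m / 2 := by linarith
    refine (pow_le_pow_left₀ h0 h1 _).trans ?_
    rw [← Real.exp_nat_mul]
    apply Real.exp_le_exp.2
    have h2 : ((N - (B + m + 2) : ℕ) : ℝ) = N - (B + m + 2) := by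
      rw [Nat.cast_sub (by omega)]; push_cast; ring
    rw [h2]
    have h3 : ((N : ℝ) - (B + m + 2)) * -((1 / (q : ℝ)) ^ m / 2) =
        -(t / 2) + (B + m + 2) * (1 / (q : ℝ)) ^ m / 2 := by
      rw [← hNp]; ring
    rw [h3]
    have h4 : ((B : ℝ) + m + 2) * (1 / (q : ℝ)) ^ m ≤ (B + m + 2) * 1 := by gcongr
    linarith
  have hM1 : mu (fun ω => ∃ x ∈ S1, P1 x ω) < 1 / 3 := by
    refine lt_of_le_of_lt ((mu_exists_le S1 P1 b1 hE1).trans ?_) ht1
    exact mul_le_mul_of_nonneg_right hS1c hb10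
  -- second bad event
  set τ : ℝ := (1 / (q : ℝ)) * (k * (B + Fintype.card (Fin N) * (1 / (q : ℝ)) ^ m) ^ k) with hτ
  have hτ0 : 0 ≤ τ := by positivity
  have hτ1 : τ ≤ (k * (B + 1) ^ k : ℝ) / t := by
    rw [hτ, Fintype.card_fin, hNp]
    have h1 : (B : ℝ) + t ≤ (B + 1) * t := by nlinarith [Nat.cast_nonneg (α := ℝ) B]
    have h2 : ((B : ℝ) + t) ^ k ≤ ((B + 1) * t) ^ k :=
      pow_le_pow_left₀ (by positivity) h1 _
    calc (1 / (q : ℝ)) * (k * (B + t) ^ k) ≤ (1 / (q : ℝ)) * (k * ((B + 1) * t) ^ k) := by gcongr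
      _ = _ := by
        rw [hqR, mul_pow, pow_succ]
        field_simp
  have hE2 : ∀ C ∈ powersetCard m (univ : Finset (Fin N)),
      mu (fun ω : Sym2 (Fin N) → Fin q => Sq k C ω K' C) ≤ τ ^ K' := by
    intro C hC
    have hCc := (Finset.mem_powersetCard.1 hC).2
    have h1 := mu_Sq (q := q) (k := k) C B τ hτ0
      (fun U hCU hU s hs => T_bound hm hk C hCc B U hCU hU s hs) K' C ∅ (Finset.Subset.refl _)
      (Finset.empty_subset _) (by rw [hCc, hB])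
    simpa using h1
  have hM2 : mu (fun ω => ∃ C ∈ powersetCard m (univ : Finset (Fin N)),
      Sq (q := q) k C ω K' C) < 1 / 3 := by
    refine lt_of_le_of_lt ((mu_exists_le _ (fun C ω => Sq (q := q) k C ω K' C) (τ ^ K')
      hE2).trans ?_) ht2
    have h1 : ((powersetCard m (univ : Finset (Fin N))).card : ℝ) ≤ (N : ℝ) ^ m := by
      rw [Finset.card_powersetCard, Finset.card_univ, Fintype.card_fin]
      exact_mod_cast choose_le_pow' _ _
    calc ((powersetCard m (univ : Finset (Fin N))).card : ℝ) * τ ^ K'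
        ≤ (N : ℝ) ^ m * ((k * (B + 1) ^ k : ℝ) / t) ^ K' := by gcongr
      _ = _ := by
        rw [hNR, ← pow_mul, mul_comm e m, div_pow, hK', pow_succ (t : ℝ) (m * e)]
        push_cast
        field_simp
  have hM : mu (fun ω : Sym2 (Fin N) → Fin q => (∃ x ∈ S1, P1 x ω) ∨
      ∃ C ∈ powersetCard m (univ : Finset (Fin N)), Sq k C ω K' C) < 1 := by
    refine lt_of_le_of_lt (mu_or _ _) ?_
    linarith
  obtain ⟨ω, hω⟩ := exists_of_mu_lt hq0 hM
  push Not at hω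
  refine ⟨N, q, K', B, inferInstance, ω, by rw [hB], by omega, ?_, ?_⟩
  · intro C A hC hA r r' hr hr'
    obtain ⟨A', hAA', hA'⟩ := Finset.exists_superset_card_eq hA
      (by rw [Fintype.card_fin]; omega)
    have h1 := hω.1 (C, A', r, r') (by
      simp only [hS1, mem_filter, mem_product, mem_powersetCard, mem_univ, subset_univ, true_and,
        and_true]
      exact ⟨⟨hC, hA'⟩, hr, hr'⟩)
    simp only [hP1] at h1
    push Not at h1
    obtain ⟨v, hv, hg⟩ := h1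
    simp only [mem_sdiff, mem_univ, true_and, mem_union, mem_insert, not_or] at hv
    exact ⟨v, fun h => hv.1 (hAA' h), hv.2.2.2, hv.2.1, hv.2.2.1, hg⟩
  · intro C hC
    exact hω.2 C (Finset.mem_powersetCard.2 ⟨Finset.subset_univ _, hC⟩)

end Pool.Agent.R46.PkFree
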