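import Mathlib
import Pool.Prelude.Def_F_8db9d53c
import Pool.Agent.R46.PkFree.Omega

/-!
# From the good outcome to a connected `P_{2m+2}`-free graph on which `m` cops lose
-/

set_option autoImplicit false

namespace Pool.Agent.R46.PkFree

open Finset

section game

open N6ef48c04

variable {V : Type*} [Fintype V] (G : SimpleGraph V)

/-- the robber can always escape from `j` cops not standing on his vertex. -/
def Ev (j : ℕ) : Prop :=
  ∀ (c : Fin j → V) (r : V), (∀ i, c i ≠ r) → ∃ v, G.Adj r v ∧ ∀ i, c i ≠ v ∧ ¬ G.Adj (c i) v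

theorem not_catch {j : ℕ} (h : Ev G j) (n : ℕ) : ∀ (c : Fin j → V) (r : V),
    (∀ i, c i ≠ r ∧ ¬ G.Adj (c i) r) → ¬ CopsCatchWithin G j n c r := by
  induction n with
  | zero =>
    rintro c r hc ⟨i, hi⟩
    exact (hc i).1 hi
  | succ n ih =>
    rintro c r hc (⟨i, hi⟩ | ⟨c', hstep, h2⟩)
    · exact (hc i).1 hi
    · have hne : ∀ i, c' i ≠ r := by
        intro i hi
        rcases hstep i with h3 | h3
        · exact (hc i).1 (h3.trans hi)
        · rw [hi] at h3; exact (hc i).2 h3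
      rcases h2 with ⟨i, hi⟩ | h2
      · exact hne i hi
      · obtain ⟨v, hv, hsafe⟩ := h c' r hne
        exact ih c' v hsafe (h2 v (Or.inr hv))

theorem not_copsWin {j : ℕ} (h : Ev G j) (hj : j < Fintype.card V) : ¬ CopsWin G j := by
  classical
  rintro ⟨c, hc⟩
  obtain ⟨r, hr⟩ : ∃ r, r ∉ univ.image c := by
    by_contra hcon
    push Not at hcon
    have h1 : (univ : Finset V) ⊆ univ.image c := fun x _ => hcon x
    have h2 := (Finset.card_le_card h1).trans Finset.card_image_le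
    rw [Finset.card_univ, Finset.card_univ, Fintype.card_fin] at h2
    omega
  obtain ⟨v, -, hv⟩ := h c r (fun i hi => hr (Finset.mem_image.2 ⟨i, Finset.mem_univ _, hi⟩))
  obtain ⟨n, hn⟩ := hc v
  exact not_catch G h n c v hv hn

theorem lt_copNumber {m : ℕ} (h : ∀ j, j ≤ m → Ev G j) (hm : m < Fintype.card V) :
    m < copNumber G := by
  have hne : {k | CopsWin G k}.Nonempty := by
    refine ⟨Fintype.card V, fun i => (Fintype.equivFin V).symm i, fun r => ⟨0, ?_⟩⟩
    exact ⟨Fintype.equivFin V r, by simp⟩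
  have h1 : CopsWin G (copNumber G) := Nat.sInf_mem hne
  by_contra hcon
  push Not at hcon
  exact not_copsWin G (h _ hcon) (by omega) h1

end game

theorem main (m : ℕ) (hm : 2 ≤ m) : ∃ (N : ℕ) (G : SimpleGraph (Fin N)), G.Connected ∧
    IsEmpty (SimpleGraph.pathGraph (2 * m + 2) ↪g G) ∧ m < N6ef48c04.copNumber G := by
  classical
  obtain ⟨N, q, K', B, hq, ω, hB, hN, h1, h2⟩ := exists_omega m hm
  set k := 2 * m + 2 with hk
  -- the pruned random graph
  let H : SimpleGraph (Fin N) :=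
    { Adj := fun x y => x ≠ y ∧ ω s(x, y) = 0 ∧ ¬ ∃ φ : Fin k → Fin N, Function.Injective φ ∧
        (∀ e ∈ cp φ, ω e = 0) ∧ s(x, y) ∈ cp φ
      symm := ⟨by
        rintro x y ⟨hxy, h0, hb⟩
        refine ⟨hxy.symm, by rw [Sym2.eq_swap]; exact h0, ?_⟩
        rw [Sym2.eq_swap]; exact hb⟩
      loopless := ⟨fun x h => h.1 rfl⟩ }
  have hH : ∀ x y, H.Adj x y ↔ x ≠ y ∧ ω s(x, y) = 0 ∧ ¬ ∃ φ : Fin k → Fin N,
      Function.Injective φ ∧ (∀ e ∈ cp φ, ω e = 0) ∧ s(x, y) ∈ cp φ := fun x y => Iff.rfl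
  have hcompl : ∀ x y, Hᶜ.Adj x y ↔ x ≠ y ∧ ¬ H.Adj x y := fun x y => SimpleGraph.compl_adj _ _ _
  -- extension property
  have hext : ∀ C : Finset (Fin N), C.card = m → ∀ r r' : Fin N, r ∉ C → r' ∉ C →
      ∃ v, v ∉ C ∧ v ≠ r ∧ v ≠ r' ∧ (∀ c ∈ C, H.Adj v c) ∧ ¬ H.Adj v r ∧ ¬ H.Adj v r' := by
    intro C hC r r' hr hr'
    by_contra hcon
    push Not at hcon
    have hkill : ∀ v, v ∉ C → v ≠ r → v ≠ r' → Gd ω C r r' v → ∃ c ∈ C, ∃ φ : Fin k → Fin N,
        Function.Injective φ ∧ (∀ e ∈ cp φ, ω e = 0) ∧ s(v, c) ∈ cp φ := by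
      intro v hvC hvr hvr' hg
      by_contra hno
      push Not at hno
      refine hcon v hvC hvr hvr' (fun c hc => ?_) (fun h => hg.2.1 h.2.1) |> fun h => hg.2.2 h.2.1
      refine (hH v c).2 ⟨fun h => hvC (h ▸ hc), hg.1 c hc, ?_⟩
      rintro ⟨φ, hφ1, hφ2, hφ3⟩
      exact hno c hc φ hφ1 hφ2 hφ3
    have hseq : ∀ (s : ℕ) (U : Finset (Fin N)), C ⊆ U → U.card + s * k ≤ B → Sq k C ω s U := by
      intro s
      induction s with
      | zero => intro U _ _; trivial
      | succ s ih =>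
        intro U hCU hU
        rw [add_mul, one_mul] at hU
        obtain ⟨v, hvU, hvC, hvr, hvr', hg⟩ := h1 C U hC (by omega) r r' hr hr'
        obtain ⟨c, hc, φ, hφ, hz, hmem⟩ := hkill v hvC hvr hvr' hg
        obtain ⟨⟨i, j⟩, hij, hs⟩ := Finset.mem_image.1 hmem
        have hab : ∃ a b : Fin k, φ a = v ∧ φ b = c := by
          rw [Sym2.eq_iff] at hs
          rcases hs with ⟨h3, h4⟩ | ⟨h3, h4⟩
          · exact ⟨i, j, h3, h4⟩
          · exact ⟨j, i, h4, h3⟩
        obtain ⟨a, b, ha, hb⟩ := hab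
        refine ⟨φ, a, ⟨hφ, by rw [ha]; exact hvU, b, by rw [hb]; exact hCU hc⟩, ?_, ?_⟩
        · intro e he
          rcases Finset.mem_union.1 he with he | he
          · exact hz e he
          · obtain ⟨c', hc', rfl⟩ := Finset.mem_image.1 he
            rw [ha]; exact hg.1 c' hc'
        · refine ih _ (hCU.trans Finset.subset_union_left) ?_
          have h5 : (U ∪ univ.image φ).card ≤ U.card + k := by
            refine (Finset.card_union_le _ _).trans ?_
            have := Finset.card_image_le (s := (univ : Finset (Fin k))) (f := φ)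
            rw [Finset.card_univ, Fintype.card_fin] at this
            omega
          omega
    exact h2 C hC (hseq K' C (Finset.Subset.refl _) (by rw [hC]; exact hB))
  refine ⟨N, Hᶜ, ?_, ?_, ?_⟩
  · -- connected
    haveI : Nonempty (Fin N) := ⟨⟨0, by omega⟩⟩
    refine SimpleGraph.Connected.mk (fun x y => ?_)
    obtain ⟨C, hCsub, hC⟩ := Finset.exists_subset_card_eq
      (s := (univ : Finset (Fin N)) \ {x, y}) (n := m) (by
        have h3 := Finset.le_card_sdiff ({x, y} : Finset (Fin N)) univ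
        have h4 := Finset.card_le_two (a := x) (b := y)
        rw [Finset.card_univ, Fintype.card_fin] at h3
        omega)
    have hx : x ∉ C := fun h => by
      have := hCsub h
      simp at this
    have hy : y ∉ C := fun h => by
      have := hCsub h
      simp at this
    obtain ⟨v, -, hvx, hvy, -, h3, h4⟩ := hext C hC x y hx hy
    have e1 : Hᶜ.Adj v x := (hcompl v x).2 ⟨hvx, h3⟩
    have e2 : Hᶜ.Adj v y := (hcompl v y).2 ⟨hvy, h4⟩
    exact e1.symm.reachable.trans e2.reachable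
  · -- path-free
    refine ⟨fun f => ?_⟩
    have hz : ∀ i j : Fin k, i.val + 2 ≤ j.val → H.Adj (f i) (f j) := by
      intro i j hij
      have hne : f i ≠ f j := fun h => by
        have := f.injective h
        rw [this] at hij
        omega
      by_contra hcon
      have h3 : Hᶜ.Adj (f i) (f j) := (hcompl _ _).2 ⟨hne, hcon⟩
      rw [f.map_adj_iff, SimpleGraph.pathGraph_adj] at h3
      omega
    have h02 := hz ⟨0, by omega⟩ ⟨2, by omega⟩ (by simp)
    refine ((hH _ _).1 h02).2.2 ⟨fun i => f i, f.injective, ?_, ?_⟩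
    · intro e he
      obtain ⟨⟨i, j⟩, hij, rfl⟩ := Finset.mem_image.1 he
      exact ((hH _ _).1 (hz i j (Finset.mem_filter.1 hij).2)).2.1
    · exact Finset.mem_image.2 ⟨(⟨0, by omega⟩, ⟨2, by omega⟩),
        Finset.mem_filter.2 ⟨Finset.mem_univ _, by simp⟩, rfl⟩
  · -- cops
    refine lt_copNumber _ ?_ (by rw [Fintype.card_fin]; omega)
    intro j hj c r hc
    have hsub : univ.image c ⊆ univ.erase r := by
      intro x hx
      obtain ⟨i, -, rfl⟩ := Finset.mem_image.1 hx
      exact Finset.mem_erase.2 ⟨hc i, Finset.mem_univ _⟩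
    obtain ⟨C, hcC, hCr, hC⟩ := Finset.exists_subsuperset_card_eq hsub (n := m) (by
        refine Finset.card_image_le.trans ?_
        rw [Finset.card_univ, Fintype.card_fin]; exact hj) (by
        rw [Finset.card_erase_of_mem (Finset.mem_univ _), Finset.card_univ, Fintype.card_fin]
        omega)
    have hr : r ∉ C := fun h => (Finset.mem_erase.1 (hCr h)).1 rfl
    obtain ⟨v, hvC, hvr, -, hadj, hnr, -⟩ := hext C hC r r hr hr
    refine ⟨v, ((hcompl v r).2 ⟨hvr, hnr⟩).symm, fun i => ?_⟩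
    have hci : c i ∈ C := hcC (Finset.mem_image.2 ⟨i, Finset.mem_univ _, rfl⟩)
    refine ⟨fun h => hvC (h ▸ hci), fun h => ?_⟩
    exact ((hcompl _ _).1 h).2 (hadj _ hci).symm

end Pool.Agent.R46.PkFree
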